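import Pool.Graph.R_seed8.Y243.ManN.Main

/-!
# MP_1f0905_gt: products of a counterexample with every space of the class

The class of the question: (Hausdorff) locally compact, locally metrizable spaces of weight at most
`ℵ₁`. There is a surface `M` such that, for every nonempty space `Y`, the product `M × Y` is a
counterexample to the dichotomy if and only if `Y` is in the class and contains no perfect preimage
of `ω₁`.
-/

set_option autoImplicit false

namespace Pool.Agent.Results.MP_1f0905_gt.ProductsWithEverySpace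

open Set Topology Filter
open Pool.Agent.Helper185.Man Pool.Agent.Helper185.Fat Pool.Agent.Y243.ManN

/-- In a perfect preimage of `ω₁` every countable family of neighbourhoods of the diagonal has a
common section which reaches arbitrarily high levels. -/
theorem exists_slice {Z : Type} [TopologicalSpace Z] {f : Z → Om1}
    (hc : ∀ δ, IsCompact (f ⁻¹' (Set.Iic δ))) (hcl : ∀ δ, IsClosed (f ⁻¹' (Set.Ici δ)))
    (hsurj : Function.Surjective f) {W : ℕ → Set (Z × Z)} (hW : ∀ n, IsOpen (W n))
    (hdn : ∀ n z, (z, z) ∈ W n) : ∃ x : Z, Big f {z | ∀ n, (x, z) ∈ W n} := by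
  let S : Type := {G : Set Z // IsClosed G ∧ Big f G}
  have hst : ∀ (n : ℕ) (G : S), ∃ G' : S, G'.1 ⊆ G.1 ∧
      ∀ x ∈ G'.1, ∃ δ, ∀ z ∈ G'.1, (x, z) ∉ W n → f z < δ := by
    intro n G
    obtain ⟨F', h1, h2, h3, h4⟩ := step hc (hW n) (hdn n) G.2.1 G.2.2
    exact ⟨⟨F', h2, h3⟩, h1, h4⟩
  choose nx hnx1 hnx2 using hst
  let G : ℕ → S := fun k => Nat.rec (motive := fun _ => S)
    ⟨Set.univ, isClosed_univ, fun δ => by
      obtain ⟨z, hz⟩ := hsurj δ
      exact ⟨z, Set.mem_univ z, hz.ge⟩⟩ (fun n y => nx n y) k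
  have hG : ∀ k, G (k + 1) = nx k (G k) := fun k => rfl
  have hmono : ∀ i j, i ≤ j → (G j).1 ⊆ (G i).1 := by
    intro i j hij
    induction j, hij using Nat.le_induction with
    | base => exact subset_rfl
    | succ j _ ih =>
      rw [hG]
      exact (hnx1 j (G j)).trans ih
  have hbig : Big f (⋂ k, (G k).1) :=
    big_inter hc hcl (fun k => (G k).2.1) (fun k => (G k).2.2) hmono
  obtain ⟨x, hx, _⟩ := hbig om1_nonempty.some
  have hx' : ∀ n, x ∈ (G n).1 := Set.mem_iInter.1 hx
  have hδ : ∀ n, ∃ δ, ∀ z ∈ (G (n + 1)).1, (x, z) ∉ W n → f z < δ := by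
    intro n
    exact hnx2 n (G n) x (hx' (n + 1))
  choose δ hδ using hδ
  refine ⟨x, fun ε => ?_⟩
  obtain ⟨γ, hγ⟩ := exists_gt ((Set.countable_range δ).union (Set.countable_singleton ε))
  obtain ⟨z, hz, hγz⟩ := hbig γ
  have hz' : ∀ n, z ∈ (G n).1 := Set.mem_iInter.1 hz
  refine ⟨z, fun n => ?_, (hγ _ (Or.inr rfl)).le.trans hγz⟩
  by_contra hcon
  have h2 := hδ n z (hz' (n + 1)) hcon
  have h3 : δ n < γ := hγ _ (Or.inl ⟨n, rfl⟩)
  exact absurd (h2.trans h3) (not_lt.2 hγz)

/-- Every unbounded subset of `ω₁` is order isomorphic to `ω₁`. -/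
theorem iso_of_unbounded {C : Set Om1} (hC : ∀ δ, ∃ c ∈ C, δ ≤ c) : Nonempty (C ≃o Om1) := by
  have hle : Ordinal.type (α := C) (· < ·) ≤ Ordinal.type (α := Om1) (· < ·) :=
    Ordinal.type_le_iff'.2 ⟨⟨⟨Subtype.val, Subtype.val_injective⟩, Iff.rfl⟩⟩
  have hnc : ¬ C.Countable := by
    intro h
    obtain ⟨γ, hγ⟩ := exists_gt h
    obtain ⟨c, hc, hc'⟩ := hC γ
    exact absurd (hγ c hc) (not_lt.2 hc')
  have hge : Ordinal.type (α := Om1) (· < ·) ≤ Ordinal.type (α := C) (· < ·) := by
    rw [Ordinal.type_toType, Cardinal.ord_le, Ordinal.card_type]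
    by_contra hcon
    rw [not_le, Cardinal.lt_aleph_one_iff, Cardinal.le_aleph0_iff_set_countable] at hcon
    exact hnc hcon
  obtain ⟨e⟩ := Ordinal.type_eq.1 (le_antisymm hle hge)
  exact ⟨OrderIso.ofRelIsoLT e⟩

/-- A perfect surjection of a space onto `ω₁`. -/
def PerfectOnto (S : Type) [TopologicalSpace S] : Prop :=
  ∃ g : S → Om1, Function.Surjective g ∧ @Continuous S Om1 _ om1Top g ∧
    @IsClosedMap S Om1 _ om1Top g ∧ ∀ a, IsCompact (g ⁻¹' {a})

theorem perfectOnto_of_big {Z : Type} [TopologicalSpace Z] {f : Z → Om1}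
    (hf : @Continuous Z Om1 _ om1Top f) (hc : ∀ δ, IsCompact (f ⁻¹' (Set.Iic δ))) {S : Set Z}
    (hS : IsClosed S) (hb : Big f S) : PerfectOnto S := by
  let _ := om1Top
  have : OrderTopology Om1 := ⟨rfl⟩
  obtain ⟨e⟩ := iso_of_unbounded (C := f '' S) (fun δ => by
    obtain ⟨z, hz, h⟩ := hb δ
    exact ⟨f z, ⟨z, hz, rfl⟩, h⟩)
  let g : S → Om1 := fun s => e ⟨f s, ⟨s, s.2, rfl⟩⟩
  have hlt : ∀ (s : S) (a : Om1), g s < a ↔ f s < (e.symm a : f '' S) := by
    intro s a
    rw [← OrderIso.lt_symm_apply]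
    exact Iff.rfl
  have hgt : ∀ (s : S) (a : Om1), a < g s ↔ ((e.symm a : f '' S) : Om1) < f s := by
    intro s a
    rw [← OrderIso.symm_apply_lt]
    exact Iff.rfl
  have hfS : Continuous (fun s : S => f s) := hf.comp continuous_subtype_val
  have hg : Continuous g := by
    rw [OrderTopology.continuous_iff]
    intro a
    constructor
    · have : g ⁻¹' (Ioi a) = (fun s : S => f s) ⁻¹' (Ioi ((e.symm a : f '' S) : Om1)) := by
        ext s; exact hgt s a
      rw [this]
      exact isOpen_Ioi.preimage hfS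
    · have : g ⁻¹' (Iio a) = (fun s : S => f s) ⁻¹' (Iio ((e.symm a : f '' S) : Om1)) := by
        ext s; exact hlt s a
      rw [this]
      exact isOpen_Iio.preimage hfS
  have hgc : ∀ a, IsCompact (g ⁻¹' (Set.Iic a)) := by
    intro a
    have h1 : g ⁻¹' (Iic a) = (Subtype.val : S → Z) ⁻¹' (f ⁻¹' (Iic ((e.symm a : f '' S) : Om1))) := by
      ext s
      have := hgt s a
      constructor
      · intro h
        exact not_lt.1 (fun h' => absurd (this.2 h') (not_lt.2 h))
      · intro h
        exact not_lt.1 (fun h' => absurd (this.1 h') (not_lt.2 h))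
    rw [h1]
    exact hS.isClosedEmbedding_subtypeVal.isCompact_preimage (hc _)
  have hfib : ∀ a, IsCompact (g ⁻¹' {a}) := fun a =>
    (hgc a).of_isClosed_subset (isClosed_singleton.preimage hg)
      (preimage_mono (fun x hx => (show x = a from hx).le))
  refine ⟨g, ?_, hg, ?_, hfib⟩
  · intro a
    obtain ⟨s, hs, h⟩ := (e.symm a).2
    refine ⟨⟨s, hs⟩, ?_⟩
    show e ⟨f s, _⟩ = a
    rw [← OrderIso.eq_symm_apply]
    exact Subtype.ext h
  · intro F hF
    rw [← closure_subset_iff_isClosed]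
    intro a ha
    have h1 : IsClosed (g '' (F ∩ g ⁻¹' (Iic a))) :=
      (((hgc a).inter_left hF).image hg).isClosed
    have h2 : a ∈ closure (g '' (F ∩ g ⁻¹' (Iic a))) := by
      rw [mem_closure_iff_nhds] at ha ⊢
      intro U hU
      obtain ⟨b, ⟨hb1, hb2⟩, s, hs, rfl⟩ :=
        ha (U ∩ Iic a) (Filter.inter_mem hU ((isOpen_Iic_om1 a).mem_nhds (Set.mem_Iic.2 (le_refl a))))
      exact ⟨g s, hb1, s, ⟨hs, hb2⟩, rfl⟩
    rw [h1.closure_eq] at h2
    obtain ⟨s, hs, rfl⟩ := h2
    exact ⟨s, hs.1, rfl⟩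

theorem contains_of_embedding {S Y : Type} [TopologicalSpace S] [TopologicalSpace Y] {j : S → Y}
    (hj : IsEmbedding j) (h : PerfectOnto S) : ContainsPerfectPreimage Y := by
  obtain ⟨g, h1, h2, h3, h4⟩ := h
  let e : S ≃ₜ range j := hj.toHomeomorph
  refine ⟨range j, g ∘ e.symm, h1.comp e.symm.surjective, ?_, ?_, ?_⟩
  · let _ := om1Top
    exact h2.comp e.symm.continuous
  · let _ := om1Top
    exact IsClosedMap.comp h3 e.symm.isClosedMap
  · intro a
    rw [preimage_comp]
    exact e.symm.isClosedEmbedding.isCompact_preimage (h4 a)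

theorem contains_mono {X Y : Type} [TopologicalSpace X] [TopologicalSpace Y] {j : X → Y}
    (hj : IsEmbedding j) (h : ContainsPerfectPreimage X) : ContainsPerfectPreimage Y := by
  obtain ⟨Z, f, h⟩ := h
  exact contains_of_embedding (hj.comp IsEmbedding.subtypeVal) ⟨f, h⟩

/-- If `X` has a `G_δ`-diagonal and `X × Y` contains a perfect preimage of `ω₁`, then so does
`Y`. -/
theorem contains_of_prod {X Y : Type} [TopologicalSpace X] [T1Space X] [TopologicalSpace Y]
    (hX : HasGdeltaDiagonal X) (h : ContainsPerfectPreimage (X × Y)) :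
    ContainsPerfectPreimage Y := by
  obtain ⟨W, hW, hd⟩ := hX
  obtain ⟨Z, f, hsurj, hcont, hclosed, hfib⟩ := h
  have key : ∃ x : Z, Big f {z | ∀ n, ((x : X × Y).1, (z : X × Y).1) ∈ W n} := by
    let _ := om1Top
    have : OrderTopology Om1 := ⟨rfl⟩
    have hproper : IsProperMap f := isProperMap_iff_isClosedMap_and_compact_fibers.2
      ⟨hcont, hclosed, hfib⟩
    have hcomp : ∀ δ, IsCompact (f ⁻¹' (Set.Iic δ)) := fun δ =>
      hproper.isCompact_preimage (isCompact_Iic_om1 δ)
    have hcl : ∀ δ, IsClosed (f ⁻¹' (Set.Ici δ)) := fun δ => isClosed_Ici.preimage hcont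
    have c1 : Continuous (fun p : Z × Z => ((p.1 : X × Y).1, (p.2 : X × Y).1)) := by fun_prop
    exact exists_slice hcomp hcl hsurj
      (W := fun n => (fun p : Z × Z => ((p.1 : X × Y).1, (p.2 : X × Y).1)) ⁻¹' W n)
      (fun n => (hW n).preimage c1) (fun n z => by
        have h1 : ((z : X × Y).1, (z : X × Y).1) ∈ ⋂ n, W n := by rw [hd]; rfl
        exact mem_iInter.1 h1 n)
  obtain ⟨x, hx⟩ := key
  have hcomp : ∀ δ, IsCompact (f ⁻¹' (Set.Iic δ)) := by
    let _ := om1Top
    have : OrderTopology Om1 := ⟨rfl⟩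
    have hproper : IsProperMap f := isProperMap_iff_isClosedMap_and_compact_fibers.2
      ⟨hcont, hclosed, hfib⟩
    exact fun δ => hproper.isCompact_preimage (isCompact_Iic_om1 δ)
  have hS : IsClosed {z : Z | (z : X × Y).1 = (x : X × Y).1} :=
    isClosed_singleton.preimage (f := fun z : Z => (z : X × Y).1) (by fun_prop)
  have hb : Big f {z : Z | (z : X × Y).1 = (x : X × Y).1} := by
    intro δ
    obtain ⟨z, hz, h⟩ := hx δ
    refine ⟨z, ?_, h⟩
    have h1 : ((x : X × Y).1, (z : X × Y).1) ∈ ⋂ n, W n := mem_iInter.2 hz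
    rw [hd] at h1
    exact (show (x : X × Y).1 = (z : X × Y).1 from h1).symm
  refine contains_of_embedding
    (j := fun s : {z : Z | (z : X × Y).1 = (x : X × Y).1} => (s.1 : X × Y).2) ?_
    (perfectOnto_of_big hcont hcomp hS hb)
  refine IsEmbedding.of_comp (f := fun s : {z : Z | (z : X × Y).1 = (x : X × Y).1} =>
    (s.1 : X × Y).2) (g := fun y : Y => ((x : X × Y).1, y)) (by fun_prop) (by fun_prop) ?_
  have : (fun y : Y => ((x : X × Y).1, y)) ∘
      (fun s : {z : Z | (z : X × Y).1 = (x : X × Y).1} => (s.1 : X × Y).2) =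
      fun s => (s.1 : X × Y) := by
    funext s
    exact Prod.ext s.2.symm rfl
  rw [this]
  exact IsEmbedding.subtypeVal.comp IsEmbedding.subtypeVal

/-- The class of the question: Hausdorff, locally compact, locally metrizable, of weight at most
`ℵ₁`. -/
def InClass (X : Type) [TopologicalSpace X] : Prop :=
  T2Space X ∧ LocallyCompactSpace X ∧ LocallyMetrizable X ∧ WeightLeAleph1 X

/-- `X` is in the class of the question and has neither of the properties (i), (ii). -/
def Counterexample (X : Type) [TopologicalSpace X] : Prop :=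
  InClass X ∧ ¬ ContainsPerfectPreimage X ∧ ¬ QuasiDevelopable X

theorem locallyMetrizable_prod {X Y : Type} [TopologicalSpace X] [TopologicalSpace Y]
    (hX : LocallyMetrizable X) (hY : LocallyMetrizable Y) : LocallyMetrizable (X × Y) := by
  rintro ⟨x, y⟩
  obtain ⟨U, u1, u2, u3⟩ := hX x
  obtain ⟨V, v1, v2, v3⟩ := hY y
  have := u3
  have := v3
  exact ⟨U ×ˢ V, u1.prod v1, ⟨u2, v2⟩, (Homeomorph.Set.prod U V).isEmbedding.metrizableSpace⟩

theorem locallyMetrizable_of_embedding {X Y : Type} [TopologicalSpace X] [TopologicalSpace Y]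
    {j : X → Y} (hj : IsEmbedding j) (hY : LocallyMetrizable Y) : LocallyMetrizable X := by
  intro x
  obtain ⟨U, u1, u2, u3⟩ := hY (j x)
  have := u3
  refine ⟨j ⁻¹' U, u1.preimage hj.continuous, u2, ?_⟩
  have h : IsEmbedding (fun z : j ⁻¹' U => (⟨j z, z.2⟩ : U)) := by
    refine IsEmbedding.of_comp (g := Subtype.val)
      (Continuous.subtype_mk (hj.continuous.comp continuous_subtype_val) _)
      continuous_subtype_val ?_
    exact hj.comp IsEmbedding.subtypeVal
  exact h.metrizableSpace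

theorem weight_prod' {X Y : Type} [TopologicalSpace X] [TopologicalSpace Y]
    (hX : WeightLeAleph1 X) (hY : WeightLeAleph1 Y) : WeightLeAleph1 (X × Y) := by
  obtain ⟨B, b1, b2⟩ := hX
  obtain ⟨C, c1, c2⟩ := hY
  refine ⟨_, b1.prod c1, ?_⟩
  refine (Cardinal.mk_le_of_surjective (f := fun p : B × C =>
    (⟨(p.1 : Set X) ×ˢ (p.2 : Set Y), mem_image2_of_mem p.1.2 p.2.2⟩ :
      (Set.image2 (· ×ˢ ·) B C : Set (Set (X × Y))))) ?_).trans ?_
  · rintro ⟨_, U, hU, V, hV, rfl⟩
    exact ⟨(⟨U, hU⟩, ⟨V, hV⟩), rfl⟩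
  · rw [Cardinal.mk_prod]
    simp only [Cardinal.lift_id]
    exact Cardinal.mul_le_of_le (Cardinal.aleph0_le_aleph 1) b2 c2

theorem weight_of_embedding {X Y : Type} [TopologicalSpace X] [TopologicalSpace Y]
    {j : X → Y} (hj : IsEmbedding j) (hY : WeightLeAleph1 Y) : WeightLeAleph1 X := by
  obtain ⟨B, b1, b2⟩ := hY
  refine ⟨_, b1.isInducing hj.isInducing, ?_⟩
  exact Cardinal.mk_image_le.trans b2

theorem isClosedEmbedding_right {M Y : Type} [TopologicalSpace M] [T1Space M]
    [TopologicalSpace Y] (m : M) : IsClosedEmbedding (fun y : Y => (m, y)) := by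
  refine ⟨isEmbedding_prodMkRight m, ?_⟩
  have : range (fun y : Y => (m, y)) = Prod.fst ⁻¹' {m} := by
    ext ⟨a, b⟩
    constructor
    · rintro ⟨y, hy⟩
      exact (congrArg Prod.fst hy).symm
    · intro h
      exact ⟨b, Prod.ext (show a = m from h).symm rfl⟩
  rw [this]
  exact isClosed_singleton.preimage continuous_fst

/-- A Hausdorff space with a `G_δ`-diagonal in the class which is not quasi-developable: its product
with a nonempty space `Y` is a counterexample if and only if `Y` is in the class and contains no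
perfect preimage of `ω₁`. -/
theorem counterexample_prod_iff {M : Type} [TopologicalSpace M] [Nonempty M] (hM : InClass M)
    (hG : HasGdeltaDiagonal M) (hq : ¬ QuasiDevelopable M) (Y : Type) [TopologicalSpace Y]
    [Nonempty Y] :
    Counterexample (M × Y) ↔ InClass Y ∧ ¬ ContainsPerfectPreimage Y := by
  obtain ⟨m1, m2, m3, m4⟩ := hM
  obtain ⟨m⟩ := ‹Nonempty M›
  have hj : IsEmbedding (fun y : Y => (m, y)) := isEmbedding_prodMkRight m
  constructor
  · rintro ⟨⟨h1, h2, h3, h4⟩, h5, -⟩
    have hcl : IsClosedEmbedding (fun y : Y => (m, y)) := isClosedEmbedding_right m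
    exact ⟨⟨hj.t2Space, hcl.locallyCompactSpace, locallyMetrizable_of_embedding hj h3,
      weight_of_embedding hj h4⟩, fun h => h5 (contains_mono hj h)⟩
  · rintro ⟨⟨h1, h2, h3, h4⟩, h5⟩
    exact ⟨⟨inferInstance, inferInstance, locallyMetrizable_prod m3 h3, weight_prod' m4 h4⟩,
      fun h => h5 (contains_of_prod hG h), not_qd_prod hq⟩

/-- (0) If `X` is a nonempty `T1` space with a `G_δ`-diagonal, then `X × Y` contains a perfect
preimage of `ω₁` if and only if `Y` does.

There is a surface `M` (a connected Hausdorff 2-manifold covered by at most `ℵ₁` charts, with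
a `G_δ`-diagonal) such that

(1) for every nonempty space `Y`, the product `M × Y` is a counterexample to the dichotomy if and
only if `Y` is in the class of the question and contains no perfect preimage of `ω₁`;

(2) if `N` is a `k`-manifold covered by at most `ℵ₁` charts, then `M × N` is a
`(2 + k)`-manifold covered by at most `ℵ₁` charts, and it is a counterexample to the dichotomy
if and only if `N` contains no perfect preimage of `ω₁`.

(3) Every nonempty space of the class which contains no perfect preimage of `ω₁` is a closed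
subspace and a retract of a counterexample. -/
theorem result :
    (∀ (X Y : Type) [TopologicalSpace X] [T1Space X] [Nonempty X] [TopologicalSpace Y],
      HasGdeltaDiagonal X → (ContainsPerfectPreimage (X × Y) ↔ ContainsPerfectPreimage Y)) ∧
    (∃ (M : Type) (_ : TopologicalSpace M),
      IsMfd M 2 ∧ MfdWeightLeAleph1 M 2 ∧ HasGdeltaDiagonal M ∧
      (∀ (Y : Type) [TopologicalSpace Y] [Nonempty Y],
        Counterexample (M × Y) ↔ InClass Y ∧ ¬ ContainsPerfectPreimage Y) ∧
      (∀ (k : ℕ) (N : Type) [TopologicalSpace N], IsMfd N k → MfdWeightLeAleph1 N k →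
        IsMfd (M × N) (2 + k) ∧ MfdWeightLeAleph1 (M × N) (2 + k) ∧
        (Counterexample (M × N) ↔ ¬ ContainsPerfectPreimage N))) ∧
    (∀ (Y : Type) [TopologicalSpace Y] [Nonempty Y], InClass Y → ¬ ContainsPerfectPreimage Y →
      ∃ (X : Type) (_ : TopologicalSpace X) (j : Y → X) (r : X → Y), Counterexample X ∧
        IsClosedEmbedding j ∧ Continuous r ∧ ∀ y, r (j y) = y) := by
  obtain ⟨M, _, h1, h2, h3, h4⟩ := exists_mfd
  have hM : InClass M := ⟨h1.2.1, locallyCompact_of_mfd h1, locallyMetrizable_of_mfd h1,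
    weight_of_mfd h2⟩
  have := h1.1
  have := h1.2.1
  have key := fun (Y : Type) [TopologicalSpace Y] [Nonempty Y] =>
    counterexample_prod_iff hM h3 h4 Y
  refine ⟨fun X Y _ _ hX _ hG => ⟨contains_of_prod hG, ?_⟩,
    ⟨M, inferInstance, h1, h2, h3, fun Y _ _ => key Y, fun k N _ g1 g2 => ?_⟩, ?_⟩
  · obtain ⟨x⟩ := hX
    exact contains_mono (isEmbedding_prodMkRight x)
  · have := g1.1
    refine ⟨mfd_prod h1 g1, weight_prod h2 g2, (key N).trans ⟨fun h => h.2, fun h => ⟨?_, h⟩⟩⟩
    exact ⟨g1.2.1, locallyCompact_of_mfd g1, locallyMetrizable_of_mfd g1, weight_of_mfd g2⟩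
  · intro Y _ _ hY hP
    obtain ⟨m⟩ := (inferInstance : Nonempty M)
    exact ⟨M × Y, inferInstance, fun y => (m, y), Prod.snd, (key Y).2 ⟨hY, hP⟩,
      isClosedEmbedding_right m, continuous_snd, fun y => rfl⟩

end Pool.Agent.Results.MP_1f0905_gt.ProductsWithEverySpace
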